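import Pool.Agent.N255.GE.ErgExt

open MeasureTheory Set

namespace Pool.Agent.Results.MP_5ca0ff_an.EveryErgodic

open R970.WM

/-- For every ergodic interval exchange transformation `T = iet π lam` and every compact connected
(Hausdorff, second countable) topological group `G` - in particular every compact connected Lie
group - with Haar probability measure `ν`, for `ν^n` almost every `g ∈ Gⁿ` the `G`-extension of
`T` by the simple function `g` is ergodic with respect to Lebesgue × `ν`. -/
theorem result (G : Type) [Group G] [TopologicalSpace G] [IsTopologicalGroup G] [CompactSpace G]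
    [ConnectedSpace G] [T2Space G] [SecondCountableTopology G] [MeasurableSpace G] [BorelSpace G]
    (ν : Measure G) [IsProbabilityMeasure ν] [ν.IsHaarMeasure]
    (n : ℕ) [NeZero n] (π : Equiv.Perm (Fin n)) (lam : Fin n → ℝ)
    (hpos : ∀ k, 0 < lam k) (hsum : ∑ k, lam k = 1) (herg : Ergodic (iet π lam) U) :
    ∀ᵐ g ∂(Measure.pi (fun _ : Fin n => ν)),
      Ergodic (skewG (iet π lam) (idx lam) g) (U.prod ν) :=
  Pool.Agent.N255.GE.ergExt G ν n π lam hpos hsum herg

end Pool.Agent.Results.MP_5ca0ff_an.EveryErgodic
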